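import Pool.Agent.Lib.MP_de5887_an.Ex.Core

set_option autoImplicit false

open Finset Pool.Agent.Lib.MP_de5887_an
open scoped BigOperators

namespace Pool.Agent.Results.MP_de5887_an.NearLinear

/-- The homogeneous Boolean Bohnenblust-Hille constants grow at most like `d ^ (1 + ε)`. -/
theorem result :
    ∀ ε : ℝ, 0 < ε → ∃ C : ℝ, 0 < C ∧ ∀ d : ℕ, 1 ≤ d → ∀ (n : ℕ) (a : Finset (Fin n) → ℝ) (M : ℝ),
      (∀ x : Fin n → ℝ, (∀ i, x i = 1 ∨ x i = -1) →
        |∑ S ∈ (Finset.univ : Finset (Fin n)).powersetCard d, a S * ∏ i ∈ S, x i| ≤ M) →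
      (∑ S ∈ (Finset.univ : Finset (Fin n)).powersetCard d,
          |a S| ^ ((2 * (d : ℝ)) / ((d : ℝ) + 1))) ^ (((d : ℝ) + 1) / (2 * (d : ℝ)))
        ≤ C * (d : ℝ) ^ (1 + ε) * M := by
  intro ε hε
  obtain ⟨C, hC, h⟩ := Ex.near_linear hε
  refine ⟨C, hC, fun d hd n a M hM => ?_⟩
  have hM' : ∀ x : Fin n → Bool,
      |∑ S ∈ (Finset.univ : Finset (Fin n)).powersetCard d, a S * ∏ i ∈ S, sg (x i)| ≤ M :=
    fun x => hM _ fun i => sg_cases (x i)
  have hd' : (0 : ℝ) < d := by exact_mod_cast hd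
  rcases ((abs_nonneg _).trans (hM' fun _ => true)).eq_or_lt with h0 | hpos
  · obtain ⟨x, hx⟩ := bh_hom d hd a
    refine hx.trans ?_
    rw [le_antisymm ((hM' x).trans h0.symm.le) (abs_nonneg _), ← h0, mul_zero, mul_zero]
  have h1 := h d hd n (fun S => M⁻¹ * a S) fun x => by
    simp only [mul_assoc]
    rw [← mul_sum, abs_mul, abs_of_pos (inv_pos.2 hpos), inv_mul_le_iff₀ hpos, mul_one]
    exact hM' x
  have hq : (2 * (d : ℝ)) / ((d : ℝ) + 1) = qq d := rfl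
  have e : ∑ S ∈ (Finset.univ : Finset (Fin n)).powersetCard d, |a S| ^ qq d =
      M ^ qq d * ∑ S ∈ Ex.PP (Fin n) d, |M⁻¹ * a S| ^ qq d := by
    rw [mul_sum]
    refine sum_congr rfl fun S _ => ?_
    rw [← Real.mul_rpow hpos.le (abs_nonneg _), abs_mul, abs_of_pos (inv_pos.2 hpos), ← mul_assoc,
      mul_inv_cancel₀ hpos.ne', one_mul]
  have e2 : qq d * (((d : ℝ) + 1) / (2 * (d : ℝ))) = 1 := by unfold qq; field_simp
  rw [hq, e, Real.mul_rpow (by positivity) (sum_nonneg fun _ _ => by positivity),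
    ← Real.rpow_mul hpos.le, e2, Real.rpow_one, mul_comm]
  exact mul_le_mul_of_nonneg_right h1 hpos.le

end Pool.Agent.Results.MP_de5887_an.NearLinear
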